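import Pool.Agent.Y516.OJ.Final

set_option autoImplicit false

/-!
# SetDisjointness: quadratic space, if only one of the cells read depends on both halves

A family of sets of total size `N`, in two halves, is preprocessed. The memory has `s` cells of `w`
bits, which may be *arbitrary* functions of the whole family, and in addition an unlimited memory
with arbitrary functions of the first half alone and of the second half alone. A query names a set
of each half, and asks whether the two sets are disjoint. One of the `s` joint cells is read; its
address may be an *arbitrary* function of the query, of the first half and of public random bits.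
Then the query is answered by an arbitrary communication protocol of at most `b` bits between the
two halves; for instance, `T` adaptive probes of cells of the one-sided memory are such a protocol
with `b = w T`. If the error probability is at most `1 / (2 * 10 ^ 6)`, then

  `N ^ 2 ≤ 10 ^ 20 * (b + l) ^ 2 * w ^ 3 * s`, where `l = ⌈2 log₂ N⌉`,

and `l = 0` suffices if the address is a function of the query and the random bits only. So
constant (or polylogarithmic) query time needs space `Ω~(N ^ 2)` in this model, and query time `T`
needs space `Ω~(N ^ 2 / T ^ 2)`, which is the conjectured and optimal dependence on `T`.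

The proof is described in `Pool.Agent.Results.MP_f326ae_lc.AdaptiveJointProbe`.
-/

namespace Pool.Agent.Results.MP_90de28_lc.AdaptiveJointProbe

open Pool.Agent.Y516.OJ

/-- For all `N`, `w`, `b`, `l` there are `k` and `u` such that every random data structure with `s`
joint cells of `w` bits, one joint probe (the address is a function of the query and of the first
half) and protocols of `b` bits, which decides disjointness for families of `2 k` subsets of a
universe with `u` elements, of total size at most `N`, satisfies
`N ^ 2 ≤ 10 ^ 20 * (b + l) ^ 2 * w ^ 3 * s`, if `N ^ 2 ≤ 2 ^ l` or if the addresses do not depend on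
the family. -/
theorem result (N w b l : ℕ) (hw : 1 ≤ w) (hb : 1 ≤ b) :
    ∃ k u : ℕ, u ≤ 2 * 10 ^ 14 * (b + l) ^ 2 * w ^ 2 ∧
      ∀ (s : ℕ) (Ω : Type) [Fintype Ω] (p : Ω → ℝ) (D : Ω → PairADS k u w s),
        (N ^ 2 ≤ 2 ^ l ∨ ∀ ω i j F F', (D ω).addr i j F = (D ω).addr i j F') →
        SolvesPairA b N p D → N ^ 2 ≤ 10 ^ 20 * (b + l) ^ 2 * w ^ 3 * s :=
  pair_ad coreThm adThm2 N w b l hw hb

end Pool.Agent.Results.MP_90de28_lc.AdaptiveJointProbe
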