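import Pool.Agent.Y516.OJ.Final

set_option autoImplicit false

/-!
# SetDisjointness: the known structure is optimal among those with a two-dimensional joint table

The known structure with query time `T` stores a table with the answers for all pairs of sets with
more than `T` elements, with `(N / T) ^ 2` cells; the cell which is read is given by the rank of the
first set and the rank of the second set among the sets with more than `T` elements, and a set with
at most `T` elements is looked up in the other set. We show that this space is optimal up to factors
polylogarithmic in `N` among all structures of the following kind. A family of sets in two halves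
is preprocessed. There is a table of `s₁` rows and `s₂` columns of cells of `w` bits, which may be
*arbitrary* functions of the whole family, and in addition an unlimited memory with arbitrary
functions of the first half alone and of the second half alone. A query names a set `i` of the first
half and a set `j` of the second half. One cell of the table is read; its row may be an *arbitrary*
function of `i`, the first half and public random bits, and its column an arbitrary function of `j`,
the second half and public random bits. Then the query is answered by an arbitrary communication
protocol of at most `b` bits between the two halves; for instance, `T` adaptive probes of cells of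
the one-sided memory are such a protocol with `b = w T`. If the error probability is at most
`1 / (2 * 10 ^ 6)`, then

  `N ^ 2 ≤ 3 * 10 ^ 24 * (b + log₂ N + 1) ^ 2 * w ^ 4 * s₁ s₂`.

The proof is described in `Pool.Agent.Results.MP_f326ae_lc.TwoDimensionalTable`.
-/

namespace Pool.Agent.Results.MP_90de28_lc.TwoDimensionalTable

open Pool.Agent.Y516.OJ

/-- For all `N`, `w`, `b` there are `k` and `u` such that every random data structure with a joint
table of `s₁` rows and `s₂` columns of cells of `w` bits, one probe to this table (the row is a
function of the first set and the first half, the column of the second set and the second half) and
protocols of `b` bits, which decides disjointness for families of `2 k` subsets of a universe with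
`u` elements, of total size at most `N`, satisfies
`N ^ 2 ≤ 3 * 10 ^ 24 * (b + log₂ N + 1) ^ 2 * w ^ 4 * (s₁ * s₂)`. -/
theorem result (N w b : ℕ) (hw : 1 ≤ w) (hb : 1 ≤ b) :
    ∃ k u : ℕ, u ≤ 2 * 10 ^ 14 * (b + (Nat.log 2 N + 1)) ^ 2 * w ^ 2 ∧
      ∀ (s₁ s₂ : ℕ) (Ω : Type) [Fintype Ω] (p : Ω → ℝ) (D : Ω → KeyDS k u w s₁ s₂),
        SolvesKey b N p D →
          N ^ 2 ≤ 3 * 10 ^ 24 * (b + (Nat.log 2 N + 1)) ^ 2 * w ^ 4 * (s₁ * s₂) :=
  key_main adThm N w b hw hb

end Pool.Agent.Results.MP_90de28_lc.TwoDimensionalTable
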